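import Pool.Agent.R811.VK.Final

/-!
# The unknotting number of a virtual knot equals its unknotting sequence number

Virtual knots are described by Gauss diagrams modulo Reidemeister moves (see
`Pool.Agent.R811.VK.Defs`).
-/

set_option autoImplicit false

namespace Pool.Agent.Results.MP_69d501_gt.SimultaneousUnknotting

open Pool.Agent.R811.VK

/-- The unknotting number: the minimum, over all diagrams `D` of `K` and all sets `S` of classical
crossings of `D` for which the change of all crossings in `S` at once turns `D` into a diagram of the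
trivial knot, of the number of elements of `S` (infinity if there are none). -/
noncomputable def unknottingNumber (K : VirtualKnot) : ℕ∞ :=
  ⨅ (D : Diagram) (S : Finset ℕ) (_ : D.knot = K) (_ : ∀ c ∈ S, IsCrossing D c)
    (_ : (D.change S).knot = trivialKnot), (S.card : ℕ∞)

/-- `Unknotting K n`: there is a procedure which starts with a diagram of `K`, ends with a diagram of
the trivial knot, alternates between moves and changes of some crossings, and changes `n` crossings
altogether. -/
inductive Unknotting : VirtualKnot → ℕ → Prop
  | stop : Unknotting trivialKnot 0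
  | step (D : Diagram) (S : Finset ℕ) (hS : ∀ c ∈ S, IsCrossing D c) (n : ℕ)
      (h : Unknotting (D.change S).knot n) : Unknotting D.knot (S.card + n)

/-- The unknotting sequence number: the minimal number of crossing changes in such a procedure
(infinity if there is none). -/
noncomputable def unknottingSequenceNumber (K : VirtualKnot) : ℕ∞ :=
  ⨅ (n : ℕ) (_ : Unknotting K n), (n : ℕ∞)

theorem toSqn {K : VirtualKnot} {n : ℕ} (h : Unknotting K n) :
    ∀ D : Diagram, D.knot = K → Sqn gC D.1 n := by
  induction h with
  | stop =>
    intro D hD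
    exact Sqn.done _ (req_of_equivalent (knot_eq_iff.1 hD))
  | step D₀ S hS n _ ih =>
    intro D hD
    have h1 := ih (D₀.change S) rfl
    have h2 : (D₀.change S).1 = D₀.1.flatMap (act gC S) := (changeWord_eq S D₀.1).symm
    rw [h2] at h1
    rw [add_comm]
    exact Sqn.moves _ _ _ (req_of_equivalent (knot_eq_iff.1 hD)) (Sqn.op _ S n h1)

theorem simultaneous {K : VirtualKnot} {n : ℕ} (h : Unknotting K n) :
    ∃ (D : Diagram) (S : Finset ℕ), D.knot = K ∧ (∀ c ∈ S, IsCrossing D c) ∧
      (D.change S).knot = trivialKnot ∧ S.card ≤ n := by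
  obtain ⟨D₀, rfl⟩ : ∃ D : Diagram, D.knot = K := Quot.exists_rep K
  obtain ⟨H, T, h1, h2, h3⟩ := Unk.of_sqn oper_gC (toSqn h D₀ rfl) D₀.2
  have hH : IsGauss H := (gauss_req h1).1 D₀.2
  classical
  refine ⟨⟨H, hH⟩, T.filter fun c => ∃ p ∈ H, p.name = c, ?_, ?_, ?_, ?_⟩
  · exact knot_eq_iff.2 (Relation.EqvGen.symm _ _ (equivalent_of_req h1 D₀.2 hH))
  · intro c hc
    exact (Finset.mem_filter.1 hc).2
  · have h4 : changeWord (T.filter fun c => ∃ p ∈ H, p.name = c) H = H.flatMap (act gC T) := by
      rw [← changeWord_eq]
      apply List.flatMap_congr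
      intro p hp
      unfold act
      by_cases hpT : p.name ∈ T
      · rw [if_pos hpT, if_pos (Finset.mem_filter.2 ⟨hpT, p, hp, rfl⟩)]
      · have h5 : p.name ∉ T.filter fun c => ∃ p ∈ H, p.name = c :=
          fun h => hpT (Finset.mem_filter.1 h).1
        rw [if_neg hpT, if_neg h5]
    refine knot_eq_iff.2 ?_
    have h6 : REq (changeWord (T.filter fun c => ∃ p ∈ H, p.name = c) H) [] := by
      rw [h4]
      exact h3
    exact equivalent_of_req h6 _ _
  · exact (Finset.card_filter_le _ _).trans h2

/-- For every virtual knot the unknotting number is equal to the unknotting sequence number. -/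
theorem result (K : VirtualKnot) : unknottingNumber K = unknottingSequenceNumber K := by
  apply le_antisymm
  · refine le_iInf fun n => le_iInf fun h => ?_
    obtain ⟨D, S, h1, h2, h3, h4⟩ := simultaneous h
    have h5 : (S.card : ℕ∞) ≤ (n : ℕ∞) := by exact_mod_cast h4
    refine le_trans ?_ h5
    exact iInf_le_of_le D (iInf_le_of_le S (iInf_le_of_le h1 (iInf_le_of_le h2 (iInf_le _ h3))))
  · refine le_iInf fun D => le_iInf fun S => le_iInf fun h1 => le_iInf fun h2 => le_iInf fun h3 => ?_
    subst h1
    have h4 : Unknotting (D.change S).knot 0 := by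
      rw [h3]
      exact Unknotting.stop
    have h5 := Unknotting.step D S h2 0 h4
    rw [add_zero] at h5
    exact iInf_le_of_le S.card (iInf_le _ h5)

end Pool.Agent.Results.MP_69d501_gt.SimultaneousUnknotting
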